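import Pool.Agent.Helper54.DI.StmtsA

namespace Pool.Agent.Helper54.DI

open Finset Filter Topology

theorem st_NCOMP : ST_NCOMP := by
  intro d j k ψ φ x
  funext i
  simp only [nev, ncomp, IntermediateField.coe_add, IntermediateField.coe_sum,
    IntermediateField.coe_mul, Finset.sum_mul, Finset.mul_sum, mul_add]
  rw [Finset.sum_add_distrib, Finset.sum_comm]
  simp only [mul_assoc]
  ring

theorem st_NID : ST_NID := by
  intro k x
  funext i
  simp only [nev, nid]
  rw [Finset.sum_eq_single i]
  · simp
  · intro b _ hb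
    rw [Pi.single_apply, if_neg hb]
    simp
  · intro h
    exact absurd (Finset.mem_univ i) h

theorem st_NB : ST_NB := by
  intro d k ι
  refine ⟨?_, ?_, ?_⟩
  · unfold nev
    fun_prop
  · intro x j
    simp only [nev, ι.hM, ι.hv]
    rw [Finset.sum_eq_single j]
    · simp
    · intro b _ hb
      rw [Pi.single_apply, if_neg hb]
      simp
    · intro h
      exact absurd (Finset.mem_univ j) h
  · intro x y a b hab
    funext i
    simp only [nev, Pi.add_apply, Pi.smul_apply, smul_eq_mul, mul_add, Finset.sum_add_distrib,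
      Finset.mul_sum]
    have h1 : (ι.v i : ℝ) = a * (ι.v i : ℝ) + b * (ι.v i : ℝ) := by
      rw [← add_mul, hab, one_mul]
    have h2 : ∀ c : ℝ, ∀ z : Fin d → ℝ, ∑ l, (ι.M i l : ℝ) * (c * z l) =
        ∑ l, c * ((ι.M i l : ℝ) * z l) := fun c z =>
      Finset.sum_congr rfl fun l _ => by ring
    rw [h2, h2]
    conv_lhs => rw [h1]
    ring

theorem st_TOP : ST_TOP := by
  intro d f x
  simp only [toP, kev, map_add, map_sum, map_mul, MvPolynomial.aeval_C, MvPolynomial.aeval_X]
  rfl

end Pool.Agent.Helper54.DI
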